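import Pool.Agent.T3H29.MLS.Ent

/-!
# Upper bounds for the two mixing parameters of the star, and for its modified log-Sobolev constant
-/

set_option autoImplicit false

open Finset Matrix
open scoped ENNReal

namespace Pool.Agent.T3H29.MLS

variable {n : ℕ}

/-- the time scale -/
noncomputable def TT (Cent : ℝ) (n : ℕ) : ℝ :=
  12 * Real.log (54 + (4 + 2 / Cent) * Real.log (8 * n + 1))

lemma log_nonneg' (n : ℕ) : 0 ≤ Real.log (8 * n + 1) := Real.log_nonneg (by
  have : (0:ℝ) ≤ n := by positivity
  linarith)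

lemma TT_nonneg {Cent : ℝ} (hC : 0 < Cent) (n : ℕ) : 0 ≤ TT Cent n := by
  unfold TT
  have h := log_nonneg' n
  have h2 : 0 ≤ (4 + 2 / Cent) * Real.log (8 * n + 1) := by positivity
  have := Real.log_nonneg (show (1:ℝ) ≤ 54 + (4 + 2 / Cent) * Real.log (8 * n + 1) by linarith)
  positivity

lemma exp_TT {Cent : ℝ} (hC : 0 < Cent) (n : ℕ) :
    Real.exp (-(TT Cent n / 12)) = (54 + (4 + 2 / Cent) * Real.log (8 * n + 1))⁻¹ := by
  have h := log_nonneg' n
  unfold TT
  rw [mul_div_cancel_left₀ _ (by norm_num), Real.exp_neg, Real.exp_log (by positivity)]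

theorem tauEnt_le (hn : 0 < n) {Cent : ℝ} (hC : 0 < Cent) : tauEnt (sP n) (sπ n) ≤ TT Cent n := by
  unfold tauEnt
  apply ciSup_le
  intro x
  apply csInf_le ⟨0, fun t ht => ht.1⟩
  refine ⟨TT_nonneg hC n, ?_⟩
  have h := log_nonneg' n
  refine (relEnt_le hn (TT_nonneg hC n) x).trans ?_
  have h1 : 0 ≤ 2 / Cent * Real.log (8 * n + 1) := by positivity
  rw [exp_TT hC, inv_mul_le_iff₀ (by positivity)]
  linarith

theorem rhoEnt_le (hn : 0 < n) {Cent : ℝ} (hC : 0 < Cent) : rhoEnt Cent (sP n) (sπ n) ≤ TT Cent n := by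
  unfold rhoEnt
  apply ciSup_le
  intro x
  unfold rhoEntAt
  apply csInf_le ⟨0, fun t ht => ht.1⟩
  refine ⟨TT_nonneg hC n, fun A hA _ hA2 => ?_⟩
  have hn' : (1 : ℝ) ≤ n := by exact_mod_cast hn
  have hnone : none ∉ A := by
    intro hmem
    have h1 : sπ n none ≤ ∑ a ∈ A, sπ n a :=
      Finset.single_le_sum (f := sπ n) (fun z _ => (sπ_pos hn z).le) hmem
    have e : sπ n none = 3 / 5 := rfl
    rw [e] at h1
    linarith
  obtain ⟨a, ha⟩ := hA
  have hlow : 1 / (5 * n) ≤ ∑ a ∈ A, sπ n a :=
    (sπ_ge hn a).trans (Finset.single_le_sum (f := sπ n) (fun z _ => (sπ_pos hn z).le) ha)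
  set m := ∑ a ∈ A, sπ n a with hm
  have hm0 : 0 < m := lt_of_lt_of_le (by positivity) hlow
  have hlog : |Real.log m| ≤ Real.log (8 * n + 1) := by
    rw [abs_of_nonpos (Real.log_nonpos hm0.le (by linarith)), ← Real.log_inv]
    apply Real.log_le_log (by positivity)
    have : m⁻¹ ≤ (1 / (5 * n : ℝ))⁻¹ := inv_anti₀ (by positivity) hlow
    rw [one_div, inv_inv] at this
    linarith
  have hlogpos : 0 < |Real.log m| := abs_pos.2 (Real.log_neg hm0 (by linarith)).ne
  have hL := log_nonneg' n
  have hs := survival_le hnone (TT_nonneg hC n) x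
  rw [exp_TT hC] at hs
  have h1 : 0 ≤ 2 / Cent * Real.log (8 * n + 1) := by positivity
  refine hs.trans (le_min ?_ ?_)
  · rw [le_div_iff₀ hlogpos]
    calc 3 / 2 * (54 + (4 + 2 / Cent) * Real.log (8 * n + 1))⁻¹ * |Real.log m|
        ≤ 3 / 2 * (54 + (4 + 2 / Cent) * Real.log (8 * n + 1))⁻¹ * Real.log (8 * n + 1) := by gcongr
      _ ≤ Cent := by
          rw [mul_assoc, mul_comm, mul_assoc, inv_mul_le_iff₀ (by positivity)]
          have e : (2 / Cent * Real.log (8 * n + 1)) * Cent = 2 * Real.log (8 * n + 1) := by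
            field_simp
          have h3 : 0 ≤ (54 + 4 * Real.log (8 * n + 1)) * Cent := by positivity
          nlinarith
  · rw [← div_eq_mul_inv, div_le_iff₀ (by positivity)]
    linarith

/-- the test function -/
noncomputable def test (K : ℕ) (hn : 0 < n) : Site n → ℝ
  | none => 0
  | some (a, false) => if a = ⟨0, hn⟩ then K * Real.log 2 - Real.log K else 0
  | some (a, true) => if a = ⟨0, hn⟩ then K * Real.log 2 else 0

lemma sum_ite_zero' (hn : 0 < n) (u v : ℝ) :
    ∑ a : Fin n, (if a = ⟨0, hn⟩ then u else v) = u + (n - 1) * v := by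
  have : ∀ a : Fin n, (if a = ⟨0, hn⟩ then u else v) = (if a = ⟨0, hn⟩ then u - v else 0) + v := by
    intro a; split_ifs <;> ring
  simp_rw [this, Finset.sum_add_distrib, Finset.sum_ite_eq', mem_univ, if_true, Finset.sum_const, card_univ,
    Fintype.card_fin, nsmul_eq_mul]
  ring

section
variable {K : ℕ} (hK : 1 ≤ K) (hn : 0 < n) (hnK : (n : ℝ) = 2 ^ K)
include hK hnK

lemma exp_test_inner : Real.exp (K * Real.log 2 - Real.log K) = n / K := by
  rw [Real.exp_sub, Real.exp_log (by positivity), mul_comm, Real.exp_mul, Real.exp_log (by norm_num),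
    Real.rpow_natCast, hnK]

omit hK in
lemma exp_test_tip : Real.exp (K * Real.log 2) = n := by
  rw [mul_comm, Real.exp_mul, Real.exp_log (by norm_num), Real.rpow_natCast, hnK]

omit hK in
lemma K_le : (K : ℝ) ≤ n := by
  rw [hnK]
  exact_mod_cast (Nat.lt_two_pow_self (n := K)).le

lemma logK_le : Real.log K ≤ K * Real.log 2 := by
  have h : Real.log K ≤ Real.log ((2:ℝ) ^ K) :=
    Real.log_le_log (by positivity) (by rw [← hnK]; exact K_le hnK)
  rwa [Real.log_pow] at h

theorem dirichlet_test : dirichlet (sP n) (sπ n) (fun x => Real.exp (test K hn x)) (test K hn) ≤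
    1 / 20 * (Real.log K + Real.log 2) := by
  have hK' : (0 : ℝ) < K := by positivity
  have hn' : (0 : ℝ) < n := by positivity
  have hl := logK_le hK hnK
  have hKn := K_le hnK
  have hlK : 0 ≤ Real.log K := Real.log_nonneg (by exact_mod_cast hK)
  have hl2 : 0 < Real.log 2 := Real.log_pos (by norm_num)
  have h1 : dirichlet (sP n) (sπ n) (fun x => Real.exp (test K hn x)) (test K hn) =
      1 / (20 * n) * ((n - n / K) * Real.log K + (n / K - 1) * (K * Real.log 2 - Real.log K)) := by
    have e1 : ∀ (f : Site n → ℝ) x, ∑ y, sP n x y * f y = (sP n *ᵥ f) x := fun f x => rfl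
    unfold dirichlet expect
    simp_rw [e1]
    rw [sum_site]
    simp_rw [sP_inner, sP_tip]
    have e2 : ∀ a : Fin n, (sπ n (some (a, false)) *
        ((Real.exp (test K hn (some (a, false))) - (1 / 4 * Real.exp (test K hn none) +
          1 / 2 * Real.exp (test K hn (some (a, false))) + 1 / 4 * Real.exp (test K hn (some (a, true))))) *
          test K hn (some (a, false))) +
        sπ n (some (a, true)) *
        ((Real.exp (test K hn (some (a, true))) - (1 / 4 * Real.exp (test K hn (some (a, false))) +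
          3 / 4 * Real.exp (test K hn (some (a, true))))) * test K hn (some (a, true)))) =
        if a = ⟨0, hn⟩ then 1 / (20 * n) * ((n - n / K) * Real.log K +
          (n / K - 1) * (K * Real.log 2 - Real.log K)) else 0 := by
      intro a
      by_cases ha : a = ⟨0, hn⟩
      · simp only [test, ha, if_true, sπ, Real.exp_zero, exp_test_inner hK hnK, exp_test_tip hnK]
        field_simp
        ring
      · simp only [test, ha, if_false, sπ, Real.exp_zero]
        ring
    rw [Finset.sum_congr rfl fun a _ => e2 a]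
    simp only [test, mul_zero, zero_add, Finset.sum_ite_eq', mem_univ, if_true]
  rw [h1]
  have h2 : (n - n / K) * Real.log K ≤ n * Real.log K := by
    apply mul_le_mul_of_nonneg_right _ hlK
    have : 0 ≤ (n : ℝ) / K := by positivity
    linarith
  have h3 : ((n : ℝ) / K - 1) * (K * Real.log 2 - Real.log K) ≤ n * Real.log 2 := by
    calc ((n : ℝ) / K - 1) * (K * Real.log 2 - Real.log K) ≤ (n / K) * (K * Real.log 2) := by
          apply mul_le_mul _ _ (by linarith) (by positivity)
          · linarith
          · linarith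
      _ = n * Real.log 2 := by field_simp
  calc 1 / (20 * n) * ((n - n / K) * Real.log K + (n / K - 1) * (K * Real.log 2 - Real.log K))
      ≤ 1 / (20 * n) * (n * Real.log K + n * Real.log 2) := by gcongr
    _ = _ := by field_simp

theorem ent_test : 1 / 5 * (K * Real.log 2) - 14 / 25 ≤ ent (sπ n) (fun x => Real.exp (test K hn x)) := by
  have hK' : (0 : ℝ) < K := by positivity
  have hK1 : (1 : ℝ) ≤ K := by exact_mod_cast hK
  have hn' : (0 : ℝ) < n := by positivity
  have hl := logK_le hK hnK
  have hKn := K_le hnK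
  have hn2 : (2 : ℝ) ≤ n := by
    rw [hnK]
    calc (2:ℝ) = 2 ^ 1 := by norm_num
      _ ≤ 2 ^ K := pow_le_pow_right₀ (by norm_num) hK
  have hE : expect (sπ n) (fun x => Real.exp (test K hn x)) = 1 + 1 / (5 * n) * (n + n / K - 2) := by
    unfold expect
    rw [sum_site]
    have e2 : ∀ a : Fin n, sπ n (some (a, false)) * Real.exp (test K hn (some (a, false))) +
        sπ n (some (a, true)) * Real.exp (test K hn (some (a, true))) =
        if a = ⟨0, hn⟩ then 1 / (5 * n : ℝ) * (n / K + n) else 1 / (5 * n : ℝ) * 2 := by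
      intro a
      by_cases ha : a = ⟨0, hn⟩
      · simp only [test, ha, if_true, sπ, exp_test_inner hK hnK, exp_test_tip hnK]
        ring
      · simp only [test, ha, if_false, sπ, Real.exp_zero]
        ring
    rw [Finset.sum_congr rfl fun a _ => e2 a, sum_ite_zero']
    simp only [test, sπ, Real.exp_zero]
    field_simp
    ring
  have hEl : expect (sπ n) (fun x => Real.exp (test K hn x) * Real.log (Real.exp (test K hn x))) =
      1 / (5 * n) * (n * (K * Real.log 2) + n / K * (K * Real.log 2 - Real.log K)) := by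
    unfold expect
    rw [sum_site]
    have e2 : ∀ a : Fin n, sπ n (some (a, false)) *
        (Real.exp (test K hn (some (a, false))) * Real.log (Real.exp (test K hn (some (a, false))))) +
        sπ n (some (a, true)) *
        (Real.exp (test K hn (some (a, true))) * Real.log (Real.exp (test K hn (some (a, true))))) =
        if a = ⟨0, hn⟩ then 1 / (5 * n) * (n * (K * Real.log 2) + n / K * (K * Real.log 2 - Real.log K))
          else 0 := by
      intro a
      simp_rw [Real.log_exp]
      by_cases ha : a = ⟨0, hn⟩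
      · simp only [test, ha, if_true, sπ, exp_test_inner hK hnK, exp_test_tip hnK]
        ring
      · simp only [test, ha, if_false, sπ]
        ring
    rw [Finset.sum_congr rfl fun a _ => e2 a]
    simp only [test, Real.exp_zero, Real.log_one, mul_zero, zero_add, Finset.sum_ite_eq', mem_univ, if_true]
  unfold ent
  rw [hE, hEl]
  set q : ℝ := 1 / (5 * n) * (n + n / K - 2) with hq
  have hq0 : 0 ≤ q := by
    have : 0 ≤ (n : ℝ) / K := by positivity
    apply mul_nonneg (by positivity)
    linarith
  have hq1 : q ≤ 2 / 5 := by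
    have h5 : (n : ℝ) / K ≤ n := div_le_self hn'.le hK1
    calc q ≤ 1 / (5 * n) * (2 * n) := by
          rw [hq]; gcongr; linarith
      _ = 2 / 5 := by field_simp
  have h6 : (1 + q) * Real.log (1 + q) ≤ 14 / 25 := by
    have h7 : Real.log (1 + q) ≤ q := by
      have := Real.log_le_sub_one_of_pos (show 0 < 1 + q by linarith)
      linarith
    have h8 : 0 ≤ Real.log (1 + q) := Real.log_nonneg (by linarith)
    nlinarith
  have h9 : 1 / 5 * (K * Real.log 2) ≤
      1 / (5 * n) * (n * (K * Real.log 2) + n / K * (K * Real.log 2 - Real.log K)) := by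
    have h10 : 0 ≤ (n : ℝ) / K * (K * Real.log 2 - Real.log K) := mul_nonneg (by positivity) (by linarith)
    calc 1 / 5 * (K * Real.log 2) = 1 / (5 * n) * (n * (K * Real.log 2)) := by field_simp
      _ ≤ _ := by gcongr; linarith
  linarith

end

end Pool.Agent.T3H29.MLS
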