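import Mathlib

/-!
# Finite reversible Markov chains: the modified log-Sobolev constant, the entropy mixing time and
the entropy hitting-time parameter

Conventions: `Ω` is a finite type, `P : Matrix Ω Ω ℝ` a transition matrix, `π : Ω → ℝ` its stationary
distribution. The chain runs in continuous time with generator `P - 1`.
-/

set_option autoImplicit false

open Finset
open scoped ENNReal

namespace Pool.Agent.T3H29.MLS

variable {Ω : Type} [Fintype Ω] [DecidableEq Ω]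

/-- `P` is an irreducible transition matrix on `Ω`, reversible with respect to the probability
vector `π` (which is therefore its stationary distribution). -/
structure IsReversibleChain (P : Matrix Ω Ω ℝ) (π : Ω → ℝ) : Prop where
  nonneg : ∀ x y, 0 ≤ P x y
  row_sum : ∀ x, ∑ y, P x y = 1
  irreducible : ∀ x y, ∃ k : ℕ, 0 < (P ^ k) x y
  pi_nonneg : ∀ x, 0 ≤ π x
  pi_sum : ∑ x, π x = 1
  reversible : ∀ x y, π x * P x y = π y * P y x

/-- Expectation `E_π f`. -/
def expect (π : Ω → ℝ) (f : Ω → ℝ) : ℝ := ∑ x, π x * f x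

/-- The Dirichlet form `⟨(I - P) f, g⟩_π`. -/
def dirichlet (P : Matrix Ω Ω ℝ) (π : Ω → ℝ) (f g : Ω → ℝ) : ℝ :=
  expect π fun x => (f x - ∑ y, P x y * f y) * g x

/-- `Ent_π f = E_π[f log f] - E_π[f] log E_π[f]`. -/
noncomputable def ent (π : Ω → ℝ) (f : Ω → ℝ) : ℝ :=
  expect π (fun x => f x * Real.log (f x)) - expect π f * Real.log (expect π f)

/-- The modified log-Sobolev constant, the infimum of `𝓔(e^f, f) / Ent_π(e^f)` over all
non-constant `f`. -/
noncomputable def cMLS (P : Matrix Ω Ω ℝ) (π : Ω → ℝ) : ℝ≥0∞ :=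
  ⨅ f : {f : Ω → ℝ // ¬ ∃ c : ℝ, ∀ x, f x = c},
    ENNReal.ofReal (dirichlet P π (fun x => Real.exp (f.1 x)) f.1 / ent π fun x => Real.exp (f.1 x))

/-- The heat kernel `H_t = e^{-t(I - P)}`; `H_t(x, ·)` is the law at time `t` of the chain started
at `x`. -/
noncomputable def heat (P : Matrix Ω Ω ℝ) (t : ℝ) : Matrix Ω Ω ℝ := NormedSpace.exp (-(t • (1 - P)))

/-- Relative entropy `D(μ ‖ π) = ∑ μ(x) log (μ(x) / π(x))`. -/
noncomputable def relEnt (μ π : Ω → ℝ) : ℝ := ∑ x, μ x * Real.log (μ x / π x)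

/-- The entropy mixing time `max_x inf {t ≥ 0 : D(H_t(x, ·) ‖ π) ≤ 1/2}`. -/
noncomputable def tauEnt (P : Matrix Ω Ω ℝ) (π : Ω → ℝ) : ℝ :=
  ⨆ x : Ω, sInf {t : ℝ | 0 ≤ t ∧ relEnt (heat P t x) π ≤ 1 / 2}

/-- The transition matrix killed outside `A`. -/
def killed (P : Matrix Ω Ω ℝ) (A : Finset Ω) : Matrix Ω Ω ℝ :=
  fun x y => if x ∈ A ∧ y ∈ A then P x y else 0

/-- `Pr_x[T_{A^c} > t]`: the probability that the continuous-time chain started at `x` has stayed in
`A` up to time `t`. It is `∑_{y ∈ A} e^{-t(I - P_A)}(x, y)`, where `P_A` is the matrix killed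
outside `A`. -/
noncomputable def survival (P : Matrix Ω Ω ℝ) (A : Finset Ω) (t : ℝ) (x : Ω) : ℝ :=
  ∑ y ∈ A, heat (killed P A) t x y

/-- `A` is connected: from each `a ∈ A` each `b ∈ A` is reached with positive probability before
leaving `A`. -/
def IsConn (P : Matrix Ω Ω ℝ) (A : Finset Ω) : Prop :=
  ∀ a ∈ A, ∀ b ∈ A, ∃ k : ℕ, 0 < (killed P A ^ k) a b

/-- The entropy hitting-time parameter at `x`, with constant `Cent`: the least `t ≥ 0` such that
`Pr_x[T_{A^c} > t] ≤ min (Cent / |log π(A)|) (99/100)` for every connected `A` with `π(A) ≤ 1/2`. -/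
noncomputable def rhoEntAt (Cent : ℝ) (P : Matrix Ω Ω ℝ) (π : Ω → ℝ) (x : Ω) : ℝ :=
  sInf {t : ℝ | 0 ≤ t ∧ ∀ A : Finset Ω, A.Nonempty → IsConn P A → ∑ a ∈ A, π a ≤ 1 / 2 →
    survival P A t x ≤ min (Cent / |Real.log (∑ a ∈ A, π a)|) (99 / 100)}

/-- The entropy hitting-time parameter `ρ_ent = max_x ρ_{ent,x}`. -/
noncomputable def rhoEnt (Cent : ℝ) (P : Matrix Ω Ω ℝ) (π : Ω → ℝ) : ℝ :=
  ⨆ x : Ω, rhoEntAt Cent P π x

end Pool.Agent.T3H29.MLS
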