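import Pool.Agent.T3H29.MLS.Star

/-!
# Entropy decay for the star
-/

set_option autoImplicit false

open Finset Matrix
open scoped ENNReal

namespace Pool.Agent.T3H29.MLS

variable {n : ℕ}

/-- no radial part -/
def NoRad (g : Site n → ℝ) : Prop := g none = 0 ∧ ∀ i, ∑ a, g (some (a, i)) = 0

lemma NoRad.step {g : Site n → ℝ} (h : NoRad g) : sP n *ᵥ g = sK n *ᵥ g := by
  funext x
  rcases x with _ | ⟨a, _ | _⟩
  · rw [sP_none, sK_none, h.1, h.2]; ring
  · rw [sP_inner, sK_inner, h.1]; ring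
  · rw [sP_tip, sK_tip]

lemma NoRad.mulVec {g : Site n → ℝ} (h : NoRad g) : NoRad (sK n *ᵥ g) := by
  refine ⟨sK_none g, fun i => ?_⟩
  rcases i with _ | _
  · simp_rw [sK_inner, Finset.sum_add_distrib, ← Finset.mul_sum, h.2]; ring
  · simp_rw [sK_tip, Finset.sum_add_distrib, ← Finset.mul_sum, h.2]; ring

lemma NoRad.pow {g : Site n → ℝ} (h : NoRad g) (k : ℕ) : (sP n ^ k) *ᵥ g = (sK n ^ k) *ᵥ g := by
  induction k generalizing g with
  | zero => simp
  | succ k ih => rw [pow_mulVec_succ', pow_mulVec_succ', h.step, ih h.mulVec]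

lemma NoRad.heat {g : Site n → ℝ} (h : NoRad g) (t : ℝ) (x : Site n) :
    (heat (sP n) t *ᵥ g) x = (heat (sK n) t *ᵥ g) x :=
  heat_mulVec_eq fun k => by rw [h.pow k]

/-- radial functions -/
def rfun (w0 w1 w2 : ℝ) : Site n → ℝ
  | none => w0
  | some (_, false) => w1
  | some (_, true) => w2

lemma sP_rfun (hn : 0 < n) (w0 w1 w2 : ℝ) : sP n *ᵥ (rfun w0 w1 w2) =
    rfun (11 / 12 * w0 + 1 / 12 * w1) (1 / 4 * w0 + 1 / 2 * w1 + 1 / 4 * w2) (1 / 4 * w1 + 3 / 4 * w2) := by
  have hn' : (n : ℝ) ≠ 0 := by positivity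
  funext x
  rcases x with _ | ⟨a, _ | _⟩
  · rw [sP_none]; simp only [rfun, Finset.sum_const, card_univ, Fintype.card_fin, nsmul_eq_mul]; field_simp
  · rw [sP_inner]; simp only [rfun]
  · rw [sP_tip]; simp only [rfun]

lemma rfun_pow (hn : 0 < n) {B w0 w1 w2 m : ℝ} (h1 : |w1 - w0| ≤ B) (h2 : |w2 - w1| ≤ B)
    (hm : 3 / 5 * w0 + 1 / 5 * w1 + 1 / 5 * w2 = m) (k : ℕ) : ∃ u0 u1 u2 : ℝ,
    (sP n ^ k) *ᵥ (rfun w0 w1 w2) = rfun u0 u1 u2 ∧ |u1 - u0| ≤ B * (11 / 12) ^ k ∧
      |u2 - u1| ≤ B * (11 / 12) ^ k ∧ 3 / 5 * u0 + 1 / 5 * u1 + 1 / 5 * u2 = m := by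
  induction k with
  | zero => exact ⟨w0, w1, w2, by simp, by simpa using h1, by simpa using h2, hm⟩
  | succ k ih =>
    obtain ⟨u0, u1, u2, e, b1, b2, b3⟩ := ih
    refine ⟨_, _, _, by rw [pow_mulVec_succ, e, sP_rfun hn], ?_, ?_, ?_⟩
    · rw [abs_le] at *
      rw [pow_succ]
      constructor <;> nlinarith
    · rw [abs_le] at *
      rw [pow_succ]
      constructor <;> nlinarith
    · rw [← b3]; ring

lemma rfun_bound (hn : 0 < n) {B w0 w1 w2 m : ℝ} (h1 : |w1 - w0| ≤ B) (h2 : |w2 - w1| ≤ B)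
    (hm : 3 / 5 * w0 + 1 / 5 * w1 + 1 / 5 * w2 = m) (k : ℕ) (x : Site n) :
    ((sP n ^ k) *ᵥ (rfun w0 w1 w2)) x ≤ m + 2 * B * (11 / 12) ^ k := by
  obtain ⟨u0, u1, u2, e, b1, b2, b3⟩ := rfun_pow hn h1 h2 hm k
  rw [e]
  rw [abs_le] at *
  rcases x with _ | ⟨a, _ | _⟩ <;> simp only [rfun] <;> nlinarith

lemma heat_rfun_le (hn : 0 < n) {B w0 w1 w2 m t : ℝ} (ht : 0 ≤ t) (h1 : |w1 - w0| ≤ B) (h2 : |w2 - w1| ≤ B)
    (hm : 3 / 5 * w0 + 1 / 5 * w1 + 1 / 5 * w2 = m) (x : Site n) :
    (heat (sP n) t *ᵥ (rfun w0 w1 w2)) x ≤ m + 2 * B * Real.exp (-(t / 12)) := by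
  have h3 := (pois_hasSum t m 1).add (pois_hasSum t (2 * B) (11 / 12))
  have e1 : m * Real.exp (-(t * (1 - 1))) + 2 * B * Real.exp (-(t * (1 - 11 / 12))) =
      m + 2 * B * Real.exp (-(t / 12)) := by
    rw [sub_self, mul_zero, neg_zero, Real.exp_zero, mul_one]; congr 3; ring
  rw [e1] at h3
  refine hasSum_le (fun k => ?_) (heat_mulVec_hasSum (sP n) t (rfun w0 w1 w2) x) h3
  rw [← mul_add, one_pow, mul_one]
  exact mul_le_mul_of_nonneg_left (rfun_bound hn h1 h2 hm k x) (pois_nonneg ht k)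

/-- the density of the point mass -/
noncomputable def dens (x y : Site n) : ℝ := if y = x then 1 / sπ n x else 0

/-- its radial part -/
noncomputable def rpart (x : Site n) : Site n → ℝ := match x with
  | none => rfun (5 / 3) 0 0
  | some (_, false) => rfun 0 5 0
  | some (_, true) => rfun 0 0 5

lemma heat_rpart_le (hn : 0 < n) {t : ℝ} (ht : 0 ≤ t) (x y : Site n) :
    (heat (sP n) t *ᵥ rpart x) y ≤ 1 + 10 * Real.exp (-(t / 12)) := by
  have e : (10 : ℝ) = 2 * 5 := by norm_num
  rw [e]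
  rcases x with _ | ⟨a, _ | _⟩ <;> simp only [rpart]
  · exact heat_rfun_le hn ht (by norm_num [abs_le]) (by norm_num) (by norm_num) y
  · exact heat_rfun_le hn ht (by norm_num) (by norm_num) (by norm_num) y
  · exact heat_rfun_le hn ht (by norm_num) (by norm_num) (by norm_num) y

lemma rpart_nonneg (x y : Site n) : 0 ≤ rpart x y := by
  rcases x with _ | ⟨a, _ | _⟩ <;> rcases y with _ | ⟨b, _ | _⟩ <;> simp only [rpart, rfun] <;> norm_num

lemma noRad_sub (hn : 0 < n) (x : Site n) : NoRad (dens x - rpart x) := by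
  have hn' : (n : ℝ) ≠ 0 := by positivity
  rcases x with _ | ⟨a, _ | _⟩
  · refine ⟨by simp [dens, rpart, rfun, sπ], fun i => ?_⟩
    rcases i with _ | _ <;> simp [dens, rpart, rfun]
  · refine ⟨by simp [dens, rpart, rfun], fun i => ?_⟩
    rcases i with _ | _
    · simp only [Pi.sub_apply, dens, rpart, rfun, Option.some.injEq, Prod.mk.injEq, and_true,
        Finset.sum_sub_distrib, Finset.sum_ite_eq', mem_univ, if_true, sπ, Finset.sum_const, card_univ,
        Fintype.card_fin, nsmul_eq_mul]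
      field_simp
      norm_num
    · simp [dens, rpart, rfun]
  · refine ⟨by simp [dens, rpart, rfun], fun i => ?_⟩
    rcases i with _ | _
    · simp [dens, rpart, rfun]
    · simp only [Pi.sub_apply, dens, rpart, rfun, Option.some.injEq, Prod.mk.injEq, and_true,
        Finset.sum_sub_distrib, Finset.sum_ite_eq', mem_univ, if_true, sπ, Finset.sum_const, card_univ,
        Fintype.card_fin, nsmul_eq_mul]
      field_simp
      norm_num

lemma heat_dens (M : Matrix (Site n) (Site n) ℝ) (t : ℝ) (x y : Site n) :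
    (heat M t *ᵥ dens x) y = heat M t y x / sπ n x := by
  rw [Matrix.mulVec, dotProduct]
  simp only [dens, mul_ite, mul_zero, Finset.sum_ite_eq', mem_univ, if_true]
  ring

/-- the part of the density which has not yet reached the centre -/
noncomputable def vpart (t : ℝ) (x y : Site n) : ℝ := heat (sK n) t y x / sπ n x

lemma vpart_nonneg (hn : 0 < n) {t : ℝ} (ht : 0 ≤ t) (x y : Site n) : 0 ≤ vpart t x y :=
  div_nonneg (heat_nonneg sK_nonneg ht y x) (sπ_pos hn x).le

lemma heat_div_le (hn : 0 < n) {t : ℝ} (ht : 0 ≤ t) (x y : Site n) :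
    heat (sP n) t x y / sπ n y ≤ 1 + 10 * Real.exp (-(t / 12)) + vpart t x y := by
  have h1 : heat (sP n) t x y / sπ n y = (heat (sP n) t *ᵥ dens x) y := by
    rw [heat_dens, div_eq_div_iff (sπ_pos hn y).ne' (sπ_pos hn x).ne']
    have := heat_reversible (sP_reversible (n := n)) t x y
    linarith
  have h2 : dens x = rpart x + (dens x - rpart x) := by abel
  have h3 : (heat (sP n) t *ᵥ dens x) y =
      (heat (sP n) t *ᵥ rpart x) y + (heat (sK n) t *ᵥ (dens x - rpart x)) y := by
    conv_lhs => rw [h2]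
    rw [Matrix.mulVec_add, Pi.add_apply, (noRad_sub hn x).heat]
  have h4 : (heat (sK n) t *ᵥ (dens x - rpart x)) y ≤ vpart t x y := by
    rw [Matrix.mulVec_sub, Pi.sub_apply, heat_dens]
    have : 0 ≤ (heat (sK n) t *ᵥ rpart x) y :=
      Finset.sum_nonneg fun z _ => mul_nonneg (heat_nonneg sK_nonneg ht y z) (rpart_nonneg x z)
    unfold vpart
    linarith
  rw [h1, h3]
  exact add_le_add (heat_rpart_le hn ht x y) h4

lemma vpart_mass (hn : 0 < n) {t : ℝ} (ht : 0 ≤ t) (x : Site n) :
    ∑ y, sπ n y * vpart t x y ≤ 3 / 2 * Real.exp (-(t / 12)) := by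
  have h1 : ∀ y, sπ n y * vpart t x y = heat (sK n) t x y := by
    intro y
    have := heat_reversible (sK_reversible (n := n)) t x y
    unfold vpart
    have hx := (sπ_pos hn x).ne'
    field_simp
    linarith
  simp_rw [h1]
  have h2 : ∑ y, heat (sK n) t x y = (heat (sK n) t *ᵥ fun _ => 1) x := by simp [Matrix.mulVec, dotProduct]
  have h3 : (heat (sK n) t *ᵥ fun _ => 1) x ≤ (1 / 2 * lyap x) * Real.exp (-(t * (1 - 11 / 12))) :=
    heat_mulVec_le ht fun k => pow_le_of_lyap sK_nonneg (by norm_num) (by norm_num) sK_lyap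
      (fun x => by linarith [lyap_ge x]) k x
  rw [h2]
  refine h3.trans ?_
  have e1 : -(t * (1 - 11 / 12)) = -(t / 12) := by ring
  rw [e1]
  have := lyap_le x
  gcongr
  linarith

/-- entropy decay -/
theorem relEnt_le (hn : 0 < n) {t : ℝ} (ht : 0 ≤ t) (x : Site n) :
    relEnt (heat (sP n) t x) (sπ n) ≤ Real.exp (-(t / 12)) * (27 + 2 * Real.log (8 * n + 1)) := by
  set s := Real.exp (-(t / 12)) with hs
  have hs0 : 0 < s := Real.exp_pos _
  have hs1 : s ≤ 1 := by rw [hs, Real.exp_le_one_iff]; linarith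
  have hn' : (1 : ℝ) ≤ n := by exact_mod_cast hn
  have hH : ∀ y, 0 ≤ heat (sP n) t x y := fun y => heat_nonneg (sP_nonneg n) ht x y
  have hsum : ∑ y, heat (sP n) t x y = 1 := heat_row_sum (sP_row_sum hn) t x
  have hL : 0 ≤ Real.log (8 * n + 1) := Real.log_nonneg (by linarith)
  have hv0 : ∀ y, 0 ≤ vpart t x y := vpart_nonneg hn ht x
  have hmass := vpart_mass hn ht x
  rw [← hs] at hmass
  -- upper bound for `v`
  have hvle : ∀ y, Real.log (1 + vpart t x y) ≤ Real.log (8 * n + 1) := by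
    intro y
    apply Real.log_le_log (by linarith [hv0 y])
    have h1 : sπ n y * vpart t x y ≤ 3 / 2 := by
      calc sπ n y * vpart t x y ≤ ∑ z, sπ n z * vpart t x z :=
            Finset.single_le_sum (f := fun z => sπ n z * vpart t x z)
              (fun z _ => mul_nonneg (sπ_pos hn z).le (hv0 z)) (mem_univ y)
        _ ≤ 3 / 2 * s := hmass
        _ ≤ 3 / 2 := by linarith
    have h2 : 1 / (5 * n) * vpart t x y ≤ 3 / 2 :=
      (mul_le_mul_of_nonneg_right (sπ_ge hn y) (hv0 y)).trans h1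
    have h3 : vpart t x y ≤ 15 / 2 * n := by
      rw [one_div, inv_mul_le_iff₀ (by positivity)] at h2
      linarith
    linarith
  have hterm : ∀ y, heat (sP n) t x y * Real.log (heat (sP n) t x y / sπ n y) ≤
      10 * s * heat (sP n) t x y + (sπ n y * vpart t x y) * (11 + Real.log (8 * n + 1)) := by
    intro y
    have hπ := sπ_pos hn y
    rcases (hH y).eq_or_lt with h0 | h0
    · rw [← h0, zero_mul, mul_zero, zero_add]
      exact mul_nonneg (mul_nonneg hπ.le (hv0 y)) (by linarith)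
    · set v := vpart t x y with hv
      have hvy : 0 ≤ v := hv0 y
      have hd := heat_div_le hn ht x y
      rw [← hs, ← hv] at hd
      have hl1 : Real.log (heat (sP n) t x y / sπ n y) ≤ 10 * s + Real.log (1 + v) := by
        calc Real.log (heat (sP n) t x y / sπ n y) ≤ Real.log ((1 + 10 * s) * (1 + v)) := by
              apply Real.log_le_log (by positivity)
              refine hd.trans ?_
              nlinarith
          _ = Real.log (1 + 10 * s) + Real.log (1 + v) := by
              rw [Real.log_mul (by positivity) (by positivity)]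
          _ ≤ 10 * s + Real.log (1 + v) := by
              have := Real.log_le_sub_one_of_pos (show 0 < 1 + 10 * s by positivity)
              linarith
      have hlv : Real.log (1 + v) ≤ v := by
        have := Real.log_le_sub_one_of_pos (show 0 < 1 + v by positivity)
        linarith
      have hlv0 : 0 ≤ Real.log (1 + v) := Real.log_nonneg (by linarith)
      have hH2 : heat (sP n) t x y ≤ sπ n y * (1 + 10 * s + v) := by
        rw [div_le_iff₀ hπ] at hd; linarith
      calc heat (sP n) t x y * Real.log (heat (sP n) t x y / sπ n y)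
          ≤ heat (sP n) t x y * (10 * s + Real.log (1 + v)) := mul_le_mul_of_nonneg_left hl1 h0.le
        _ = 10 * s * heat (sP n) t x y + heat (sP n) t x y * Real.log (1 + v) := by ring
        _ ≤ 10 * s * heat (sP n) t x y + sπ n y * (1 + 10 * s + v) * Real.log (1 + v) := by gcongr
        _ ≤ 10 * s * heat (sP n) t x y + (sπ n y * v) * (11 + Real.log (8 * n + 1)) := by
            have h5 : (1 + 10 * s + v) * Real.log (1 + v) ≤ v * (11 + Real.log (8 * n + 1)) := by
              have h6 : (1 + 10 * s) * Real.log (1 + v) ≤ 11 * v := by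
                apply mul_le_mul _ hlv hlv0 (by norm_num)
                linarith
              have h7 : v * Real.log (1 + v) ≤ v * Real.log (8 * n + 1) :=
                mul_le_mul_of_nonneg_left (hvle y) hvy
              nlinarith
            have h8 := mul_le_mul_of_nonneg_left h5 hπ.le
            linarith
  calc relEnt (heat (sP n) t x) (sπ n)
      ≤ ∑ y, (10 * s * heat (sP n) t x y + (sπ n y * vpart t x y) * (11 + Real.log (8 * n + 1))) :=
        Finset.sum_le_sum fun y _ => hterm y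
    _ = 10 * s + (∑ y, sπ n y * vpart t x y) * (11 + Real.log (8 * n + 1)) := by
        rw [Finset.sum_add_distrib, ← Finset.mul_sum, hsum, ← Finset.sum_mul, mul_one]
    _ ≤ 10 * s + (3 / 2 * s) * (11 + Real.log (8 * n + 1)) := by gcongr
    _ ≤ s * (27 + 2 * Real.log (8 * n + 1)) := by nlinarith [mul_nonneg hs0.le hL]

end Pool.Agent.T3H29.MLS
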