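import Pool.Agent.T3H29.MLS.Defs

/-!
# Poisson expansion of the heat kernel and comparison
-/

set_option autoImplicit false

open Finset Matrix
open scoped ENNReal Nat

namespace Pool.Agent.T3H29.MLS

variable {Ω : Type} [Fintype Ω] [DecidableEq Ω]

/-- Poisson weights -/
noncomputable def pois (t : ℝ) (k : ℕ) : ℝ := Real.exp (-t) * (t ^ k / k !)

lemma pois_nonneg {t : ℝ} (ht : 0 ≤ t) (k : ℕ) : 0 ≤ pois t k := by unfold pois; positivity

lemma heat_hasSum_matrix (M : Matrix Ω Ω ℝ) (t : ℝ) :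
    HasSum (fun k => pois t k • M ^ k) (heat M t) := by
  let _ : NormedRing (Matrix Ω Ω ℝ) := Matrix.linftyOpNormedRing
  let _ : NormedAlgebra ℝ (Matrix Ω Ω ℝ) := Matrix.linftyOpNormedAlgebra
  have h1 : -(t • (1 - M)) = algebraMap ℝ (Matrix Ω Ω ℝ) (-t) + t • M := by
    rw [Algebra.algebraMap_eq_smul_one, smul_sub, neg_smul]; abel
  have h0 : NormedSpace.exp (algebraMap ℝ (Matrix Ω Ω ℝ) (-t)) =
      algebraMap ℝ (Matrix Ω Ω ℝ) (Real.exp (-t)) := by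
    rw [Real.exp_eq_exp_ℝ]
    exact (NormedSpace.algebraMap_exp_comm (𝔸 := Matrix Ω Ω ℝ) (-t)).symm
  have h2 : heat M t = Real.exp (-t) • NormedSpace.exp (t • M) := by
    unfold heat
    rw [h1, Matrix.exp_add_of_commute _ _ (Algebra.commute_algebraMap_left _ _), h0,
      Algebra.algebraMap_eq_smul_one, smul_mul_assoc, one_mul]
  rw [h2]
  have h3 := (NormedSpace.exp_series_hasSum_exp' (𝕂 := ℝ) (t • M)).const_smul (Real.exp (-t))
  have h4 : (fun k => pois t k • M ^ k) = fun k => Real.exp (-t) • ((k ! : ℝ)⁻¹ • (t • M) ^ k) := by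
    funext k
    rw [smul_pow, smul_smul, smul_smul, pois]
    congr 1
    field_simp
  rw [h4]
  exact h3

lemma heat_hasSum (M : Matrix Ω Ω ℝ) (t : ℝ) (x y : Ω) :
    HasSum (fun k => pois t k * (M ^ k) x y) (heat M t x y) := by
  have h := heat_hasSum_matrix M t
  have h1 := (Pi.hasSum.1 (Pi.hasSum.1 h x)) y
  simpa [Matrix.smul_apply] using h1

lemma heat_mulVec_hasSum (M : Matrix Ω Ω ℝ) (t : ℝ) (g : Ω → ℝ) (x : Ω) :
    HasSum (fun k => pois t k * ((M ^ k) *ᵥ g) x) ((heat M t *ᵥ g) x) := by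
  have h : HasSum (fun k => ∑ y, (pois t k * (M ^ k) x y) * g y) (∑ y, heat M t x y * g y) :=
    hasSum_sum fun y _ => (heat_hasSum M t x y).mul_right (g y)
  have h2 : (fun k => pois t k * ((M ^ k) *ᵥ g) x) = fun k => ∑ y, (pois t k * (M ^ k) x y) * g y := by
    funext k
    rw [Matrix.mulVec, dotProduct, Finset.mul_sum]
    exact Finset.sum_congr rfl fun y _ => by ring
  rw [h2]
  exact h

lemma pois_hasSum (t c ρ : ℝ) : HasSum (fun k => pois t k * (c * ρ ^ k)) (c * Real.exp (-(t * (1 - ρ)))) := by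
  have h1 : HasSum (fun k : ℕ => (t * ρ) ^ k / k !) (Real.exp (t * ρ)) := by
    rw [Real.exp_eq_exp_ℝ]
    exact NormedSpace.expSeries_div_hasSum_exp (t * ρ)
  have h2 := h1.mul_left (c * Real.exp (-t))
  have h3 : c * Real.exp (-(t * (1 - ρ))) = c * Real.exp (-t) * Real.exp (t * ρ) := by
    rw [mul_assoc, ← Real.exp_add]; congr 2; ring
  have h4 : (fun k => pois t k * (c * ρ ^ k)) = fun k => c * Real.exp (-t) * ((t * ρ) ^ k / k !) := by
    funext k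
    rw [mul_pow, pois]
    ring
  rw [h3, h4]
  exact h2

/-- comparison -/
lemma heat_mulVec_le {M : Matrix Ω Ω ℝ} {t : ℝ} (ht : 0 ≤ t) {g : Ω → ℝ} {x : Ω} {c ρ : ℝ}
    (h : ∀ k : ℕ, ((M ^ k) *ᵥ g) x ≤ c * ρ ^ k) :
    (heat M t *ᵥ g) x ≤ c * Real.exp (-(t * (1 - ρ))) :=
  hasSum_le (fun k => mul_le_mul_of_nonneg_left (h k) (pois_nonneg ht k))
    (heat_mulVec_hasSum M t g x) (pois_hasSum t c ρ)

lemma heat_mulVec_ge {M : Matrix Ω Ω ℝ} {t : ℝ} (ht : 0 ≤ t) {g : Ω → ℝ} {x : Ω} {c ρ : ℝ}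
    (h : ∀ k : ℕ, c * ρ ^ k ≤ ((M ^ k) *ᵥ g) x) :
    c * Real.exp (-(t * (1 - ρ))) ≤ (heat M t *ᵥ g) x :=
  hasSum_le (fun k => mul_le_mul_of_nonneg_left (h k) (pois_nonneg ht k))
    (pois_hasSum t c ρ) (heat_mulVec_hasSum M t g x)

lemma heat_mulVec_mono {M N : Matrix Ω Ω ℝ} {t : ℝ} (ht : 0 ≤ t) {f g : Ω → ℝ} {x : Ω}
    (h : ∀ k : ℕ, ((M ^ k) *ᵥ f) x ≤ ((N ^ k) *ᵥ g) x) :
    (heat M t *ᵥ f) x ≤ (heat N t *ᵥ g) x :=
  hasSum_le (fun k => mul_le_mul_of_nonneg_left (h k) (pois_nonneg ht k))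
    (heat_mulVec_hasSum M t f x) (heat_mulVec_hasSum N t g x)

lemma heat_mulVec_eq {M N : Matrix Ω Ω ℝ} {t : ℝ} {f g : Ω → ℝ} {x : Ω}
    (h : ∀ k : ℕ, ((M ^ k) *ᵥ f) x = ((N ^ k) *ᵥ g) x) :
    (heat M t *ᵥ f) x = (heat N t *ᵥ g) x := by
  refine (heat_mulVec_hasSum M t f x).unique ?_
  simp_rw [h]
  exact heat_mulVec_hasSum N t g x

lemma pow_mulVec_succ (M : Matrix Ω Ω ℝ) (k : ℕ) (g : Ω → ℝ) :
    (M ^ (k + 1)) *ᵥ g = M *ᵥ ((M ^ k) *ᵥ g) := by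
  rw [pow_succ', Matrix.mulVec_mulVec]

lemma pow_mulVec_succ' (M : Matrix Ω Ω ℝ) (k : ℕ) (g : Ω → ℝ) :
    (M ^ (k + 1)) *ᵥ g = (M ^ k) *ᵥ (M *ᵥ g) := by
  rw [pow_succ, Matrix.mulVec_mulVec]

omit [DecidableEq Ω] in
lemma mulVec_mono {M : Matrix Ω Ω ℝ} (hM : ∀ x y, 0 ≤ M x y) {f g : Ω → ℝ} (h : ∀ x, f x ≤ g x) (x : Ω) :
    (M *ᵥ f) x ≤ (M *ᵥ g) x :=
  Finset.sum_le_sum fun y _ => mul_le_mul_of_nonneg_left (h y) (hM x y)

/-- Lyapunov function -/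
lemma pow_le_of_lyap {M : Matrix Ω Ω ℝ} (hM : ∀ x y, 0 ≤ M x y) {ψ g : Ω → ℝ} {b ρ : ℝ} (hb : 0 ≤ b)
    (hρ : 0 ≤ ρ) (hψ : ∀ x, (M *ᵥ ψ) x ≤ ρ * ψ x) (hg : ∀ x, g x ≤ b * ψ x) (k : ℕ) (x : Ω) :
    ((M ^ k) *ᵥ g) x ≤ (b * ψ x) * ρ ^ k := by
  induction k generalizing x with
  | zero => simpa using hg x
  | succ k ih =>
    rw [pow_mulVec_succ]
    calc (M *ᵥ ((M ^ k) *ᵥ g)) x ≤ (M *ᵥ fun y => (b * ψ y) * ρ ^ k) x := mulVec_mono hM ih x
      _ = b * ρ ^ k * (M *ᵥ ψ) x := by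
        rw [Matrix.mulVec, Matrix.mulVec, dotProduct, dotProduct, Finset.mul_sum]
        exact Finset.sum_congr rfl fun y _ => by ring
      _ ≤ b * ρ ^ k * (ρ * ψ x) := by
        apply mul_le_mul_of_nonneg_left (hψ x); positivity
      _ = (b * ψ x) * ρ ^ (k + 1) := by ring

lemma pow_nonneg_entries {M : Matrix Ω Ω ℝ} (hM : ∀ x y, 0 ≤ M x y) (k : ℕ) (x y : Ω) : 0 ≤ (M ^ k) x y := by
  induction k generalizing x y with
  | zero => rw [pow_zero, Matrix.one_apply]; split_ifs <;> norm_num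
  | succ k ih =>
    rw [pow_succ, Matrix.mul_apply]
    exact Finset.sum_nonneg fun z _ => mul_nonneg (ih _ _) (hM _ _)

/-- detailed balance for powers -/
lemma pow_reversible {M : Matrix Ω Ω ℝ} {π : Ω → ℝ} (h : ∀ x y, π x * M x y = π y * M y x) (k : ℕ) (x y : Ω) :
    π x * (M ^ k) x y = π y * (M ^ k) y x := by
  induction k generalizing x y with
  | zero =>
    rw [pow_zero, Matrix.one_apply, Matrix.one_apply]
    by_cases hxy : x = y
    · subst hxy; rfl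
    · rw [if_neg hxy, if_neg (Ne.symm hxy)]; ring
  | succ k ih =>
    have e1 : (M ^ (k + 1)) x y = ∑ z, (M ^ k) x z * M z y := by rw [pow_succ, Matrix.mul_apply]
    have e2 : (M ^ (k + 1)) y x = ∑ z, M y z * (M ^ k) z x := by rw [pow_succ', Matrix.mul_apply]
    rw [e1, e2, Finset.mul_sum, Finset.mul_sum]
    apply Finset.sum_congr rfl
    intro z _
    rw [← mul_assoc, ih x z, mul_assoc, mul_comm ((M ^ k) z x), ← mul_assoc, h z y]
    ring

lemma heat_reversible {M : Matrix Ω Ω ℝ} {π : Ω → ℝ} (h : ∀ x y, π x * M x y = π y * M y x) (t : ℝ) (x y : Ω) :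
    π x * heat M t x y = π y * heat M t y x := by
  refine ((heat_hasSum M t x y).mul_left (π x)).unique ?_
  have h1 := (heat_hasSum M t y x).mul_left (π y)
  convert h1 using 2 with k
  have := pow_reversible h k x y
  calc π x * (pois t k * (M ^ k) x y) = pois t k * (π x * (M ^ k) x y) := by ring
    _ = pois t k * (π y * (M ^ k) y x) := by rw [this]
    _ = _ := by ring

lemma heat_nonneg {M : Matrix Ω Ω ℝ} (hM : ∀ x y, 0 ≤ M x y) {t : ℝ} (ht : 0 ≤ t) (x y : Ω) : 0 ≤ heat M t x y :=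
  (heat_hasSum M t x y).nonneg fun k => mul_nonneg (pois_nonneg ht k) (pow_nonneg_entries hM k x y)

lemma pow_row_sum {M : Matrix Ω Ω ℝ} (h : ∀ x, ∑ y, M x y = 1) (k : ℕ) (x : Ω) : ∑ y, (M ^ k) x y = 1 := by
  induction k generalizing x with
  | zero => simp [Matrix.one_apply]
  | succ k ih =>
    simp_rw [pow_succ', Matrix.mul_apply]
    rw [Finset.sum_comm]
    simp_rw [← Finset.mul_sum, ih, mul_one]
    exact h x

lemma heat_row_sum {M : Matrix Ω Ω ℝ} (h : ∀ x, ∑ y, M x y = 1) (t : ℝ) (x : Ω) : ∑ y, heat M t x y = 1 := by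
  have h1 := heat_mulVec_hasSum M t (fun _ => 1) x
  have h2 : (heat M t *ᵥ fun _ => 1) x = ∑ y, heat M t x y := by simp [Matrix.mulVec, dotProduct]
  have h3 : (fun k => pois t k * ((M ^ k) *ᵥ fun _ => (1:ℝ)) x) = fun k => pois t k * (1 * 1 ^ k) := by
    funext k
    simp only [Matrix.mulVec, dotProduct, mul_one, one_pow, pow_row_sum h]
  rw [h3] at h1
  have h4 := h1.unique (pois_hasSum t 1 1)
  rw [← h2, h4]
  simp

end Pool.Agent.T3H29.MLS
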