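import Pool.Agent.T3H29.MLS.Exp

/-!
# The star with arms of length two
-/

set_option autoImplicit false

open Finset Matrix
open scoped ENNReal

namespace Pool.Agent.T3H29.MLS

/-- The vertices: a centre `none` and `n` arms, each with an inner site `(a, false)` and a tip
`(a, true)`. -/
abbrev Site (n : ℕ) : Type := Option (Fin n × Bool)

/-- transition matrix of the star -/
noncomputable def sP (n : ℕ) : Matrix (Site n) (Site n) ℝ
  | none, none => 11 / 12
  | none, some (_, false) => 1 / (12 * n)
  | none, some (_, true) => 0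
  | some (_, false), none => 1 / 4
  | some (_, true), none => 0
  | some (a, false), some (b, false) => if a = b then 1 / 2 else 0
  | some (a, false), some (b, true) => if a = b then 1 / 4 else 0
  | some (a, true), some (b, false) => if a = b then 1 / 4 else 0
  | some (a, true), some (b, true) => if a = b then 3 / 4 else 0

/-- stationary distribution -/
noncomputable def sπ (n : ℕ) : Site n → ℝ
  | none => 3 / 5
  | some _ => 1 / (5 * n)

lemma sum_site {n : ℕ} (F : Site n → ℝ) :
    ∑ x, F x = F none + ∑ a : Fin n, (F (some (a, false)) + F (some (a, true))) := by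
  rw [Fintype.sum_option, Fintype.sum_prod_type]
  congr 1
  apply Finset.sum_congr rfl
  intro a _
  rw [Fintype.sum_bool]
  ring

lemma sP_nonneg (n : ℕ) (x y : Site n) : 0 ≤ sP n x y := by
  rcases x with _ | ⟨a, _ | _⟩ <;> rcases y with _ | ⟨b, _ | _⟩ <;> simp only [sP] <;>
    first | positivity | norm_num

section
variable {n : ℕ} (f : Site n → ℝ)

lemma sP_none : (sP n *ᵥ f) none = 11 / 12 * f none + 1 / (12 * n) * ∑ a, f (some (a, false)) := by
  rw [Matrix.mulVec, dotProduct, sum_site]
  simp only [sP, zero_mul, add_zero, Finset.mul_sum]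

lemma sP_inner (a : Fin n) : (sP n *ᵥ f) (some (a, false)) =
    1 / 4 * f none + 1 / 2 * f (some (a, false)) + 1 / 4 * f (some (a, true)) := by
  rw [Matrix.mulVec, dotProduct, sum_site]
  simp only [sP, ite_mul, zero_mul, Finset.sum_add_distrib, Finset.sum_ite_eq, Finset.mem_univ, if_true]
  ring

lemma sP_tip (a : Fin n) : (sP n *ᵥ f) (some (a, true)) =
    1 / 4 * f (some (a, false)) + 3 / 4 * f (some (a, true)) := by
  rw [Matrix.mulVec, dotProduct, sum_site]
  simp only [sP, ite_mul, zero_mul, Finset.sum_add_distrib, Finset.sum_ite_eq, Finset.mem_univ, if_true]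
  ring

/-- the set of all sites but the centre -/
def arms (n : ℕ) : Finset (Site n) := univ.erase none

/-- the chain killed at the centre -/
noncomputable def sK (n : ℕ) : Matrix (Site n) (Site n) ℝ := killed (sP n) (arms n)

lemma sK_apply (x y : Site n) : sK n x y = if x ≠ none ∧ y ≠ none then sP n x y else 0 := by
  simp [sK, killed, arms]

lemma sK_nonneg (x y : Site n) : 0 ≤ sK n x y := by
  rw [sK_apply]; split_ifs; exacts [sP_nonneg n x y, le_rfl]

lemma sK_none : (sK n *ᵥ f) none = 0 := by
  rw [Matrix.mulVec, dotProduct]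
  exact Finset.sum_eq_zero fun y _ => by rw [sK_apply]; simp

lemma sK_inner (a : Fin n) : (sK n *ᵥ f) (some (a, false)) =
    1 / 2 * f (some (a, false)) + 1 / 4 * f (some (a, true)) := by
  rw [Matrix.mulVec, dotProduct, sum_site]
  simp only [sK_apply, sP, ite_mul, zero_mul, Finset.sum_add_distrib, Finset.sum_ite_eq, Finset.mem_univ,
    if_true, ne_eq, reduceCtorEq, not_false_eq_true, and_self, not_true_eq_false, and_false, if_false, zero_add]

lemma sK_tip (a : Fin n) : (sK n *ᵥ f) (some (a, true)) =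
    1 / 4 * f (some (a, false)) + 3 / 4 * f (some (a, true)) := by
  rw [Matrix.mulVec, dotProduct, sum_site]
  simp only [sK_apply, sP, ite_mul, zero_mul, Finset.sum_add_distrib, Finset.sum_ite_eq, Finset.mem_univ,
    if_true, ne_eq, reduceCtorEq, not_false_eq_true, and_self, not_true_eq_false, and_false, if_false, zero_add]

end

lemma sP_row_sum {n : ℕ} (hn : 0 < n) (x : Site n) : ∑ y, sP n x y = 1 := by
  have h : ∑ y, sP n x y = (sP n *ᵥ fun _ => 1) x := by simp [Matrix.mulVec, dotProduct]
  have hn' : (n : ℝ) ≠ 0 := by positivity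
  rw [h]
  rcases x with _ | ⟨a, _ | _⟩
  · rw [sP_none]; simp; field_simp; norm_num
  · rw [sP_inner]; norm_num
  · rw [sP_tip]; norm_num

lemma sP_reversible {n : ℕ} (x y : Site n) : sπ n x * sP n x y = sπ n y * sP n y x := by
  rcases x with _ | ⟨a, _ | _⟩ <;> rcases y with _ | ⟨b, _ | _⟩ <;> simp only [sP, sπ, eq_comm] <;> ring

lemma sK_reversible {n : ℕ} (x y : Site n) : sπ n x * sK n x y = sπ n y * sK n y x := by
  rw [sK_apply, sK_apply]
  by_cases h : x ≠ none ∧ y ≠ none
  · rw [if_pos h, if_pos h.symm, sP_reversible]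
  · rw [if_neg h, if_neg fun h' => h h'.symm]; ring

lemma sπ_pos {n : ℕ} (hn : 0 < n) (x : Site n) : 0 < sπ n x := by
  rcases x with _ | a <;> simp only [sπ] <;> positivity

lemma sπ_ge {n : ℕ} (hn : 0 < n) (x : Site n) : 1 / (5 * n) ≤ sπ n x := by
  have hn' : (1 : ℝ) ≤ n := by exact_mod_cast hn
  rcases x with _ | a <;> simp only [sπ]
  · rw [div_le_iff₀ (by positivity)]; linarith
  · exact le_rfl

lemma sπ_sum {n : ℕ} (hn : 0 < n) : ∑ x, sπ n x = 1 := by
  have hn' : (n : ℝ) ≠ 0 := by positivity
  rw [sum_site]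
  simp only [sπ, Finset.sum_const, card_univ, Fintype.card_fin, nsmul_eq_mul]
  field_simp
  norm_num

lemma pow_two_pos {Ω : Type} [Fintype Ω] [DecidableEq Ω] {M : Matrix Ω Ω ℝ} (hM : ∀ x y, 0 ≤ M x y)
    {x y z : Ω} (h1 : 0 < M x z) (h2 : 0 < M z y) : 0 < (M ^ 2) x y := by
  rw [pow_two, Matrix.mul_apply]
  exact Finset.sum_pos' (fun w _ => mul_nonneg (hM _ _) (hM _ _)) ⟨z, mem_univ _, mul_pos h1 h2⟩

lemma sP_irred {n : ℕ} (hn : 0 < n) (x y : Site n) : ∃ k : ℕ, 0 < (sP n ^ k) x y := by
  have hn' : (0 : ℝ) < n := by positivity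
  have h1 : ∀ x : Site n, 0 < (sP n ^ 2) x none := by
    intro x
    rcases x with _ | ⟨a, _ | _⟩
    · exact pow_two_pos (sP_nonneg n) (z := none) (by simp only [sP]; norm_num) (by simp only [sP]; norm_num)
    · exact pow_two_pos (sP_nonneg n) (z := none) (by simp only [sP]; norm_num) (by simp only [sP]; norm_num)
    · exact pow_two_pos (sP_nonneg n) (z := some (a, false)) (by simp only [sP, if_true]; norm_num)
        (by simp only [sP]; norm_num)
  have h2 : ∀ y : Site n, 0 < (sP n ^ 2) none y := by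
    intro x
    rcases x with _ | ⟨a, _ | _⟩
    · exact pow_two_pos (sP_nonneg n) (z := none) (by simp only [sP]; norm_num) (by simp only [sP]; norm_num)
    · exact pow_two_pos (sP_nonneg n) (z := none) (by simp only [sP]; norm_num) (by simp only [sP]; positivity)
    · exact pow_two_pos (sP_nonneg n) (z := some (a, false)) (by simp only [sP]; positivity)
        (by simp only [sP, if_true]; norm_num)
  refine ⟨2 + 2, ?_⟩
  rw [pow_add, Matrix.mul_apply]
  exact Finset.sum_pos' (fun w _ => mul_nonneg (pow_nonneg_entries (sP_nonneg n) _ _ _)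
    (pow_nonneg_entries (sP_nonneg n) _ _ _)) ⟨none, mem_univ _, mul_pos (h1 x) (h2 y)⟩

theorem sP_chain {n : ℕ} (hn : 0 < n) : IsReversibleChain (sP n) (sπ n) where
  nonneg := sP_nonneg n
  row_sum := sP_row_sum hn
  irreducible := sP_irred hn
  pi_nonneg x := (sπ_pos hn x).le
  pi_sum := sπ_sum hn
  reversible := sP_reversible

/-! ### hitting the centre -/

/-- Lyapunov function -/
def lyap {n : ℕ} : Site n → ℝ
  | none => 2
  | some (_, false) => 2
  | some (_, true) => 3

lemma lyap_ge {n : ℕ} (x : Site n) : 2 ≤ lyap x := by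
  rcases x with _ | ⟨a, _ | _⟩ <;> simp only [lyap] <;> norm_num

lemma lyap_le {n : ℕ} (x : Site n) : lyap x ≤ 3 := by
  rcases x with _ | ⟨a, _ | _⟩ <;> simp only [lyap] <;> norm_num

lemma sK_lyap {n : ℕ} (x : Site n) : (sK n *ᵥ lyap) x ≤ 11 / 12 * lyap x := by
  rcases x with _ | ⟨a, _ | _⟩
  · rw [sK_none]; simp only [lyap]; norm_num
  · rw [sK_inner]; simp only [lyap]; norm_num
  · rw [sK_tip]; simp only [lyap]; norm_num

/-- survival bound: for a set `A` not containing the centre -/
lemma survival_le {n : ℕ} {A : Finset (Site n)} (hA : none ∉ A) {t : ℝ} (ht : 0 ≤ t) (x : Site n) :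
    survival (sP n) A t x ≤ 3 / 2 * Real.exp (-(t / 12)) := by
  let g : Site n → ℝ := fun y => if y ∈ A then 1 else 0
  have h0 : survival (sP n) A t x = (heat (killed (sP n) A) t *ᵥ g) x := by
    rw [survival, Matrix.mulVec, dotProduct]
    simp only [g, mul_ite, mul_one, mul_zero, Finset.sum_ite_mem, Finset.univ_inter]
  have hK : ∀ x y, killed (sP n) A x y ≤ sK n x y := by
    intro x y
    rw [sK_apply, killed]
    by_cases h : x ∈ A ∧ y ∈ A
    · have hx : x ≠ none := fun e => hA (e ▸ h.1)
      have hy : y ≠ none := fun e => hA (e ▸ h.2)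
      rw [if_pos h, if_pos ⟨hx, hy⟩]
    · rw [if_neg h]; split_ifs; exacts [sP_nonneg n x y, le_rfl]
  have hK0 : ∀ x y, 0 ≤ killed (sP n) A x y := by
    intro x y; rw [killed]; split_ifs; exacts [sP_nonneg n x y, le_rfl]
  have h1 : ∀ x, (killed (sP n) A *ᵥ lyap) x ≤ 11 / 12 * lyap x := by
    intro x
    refine le_trans ?_ (sK_lyap x)
    exact Finset.sum_le_sum fun y _ => mul_le_mul_of_nonneg_right (hK x y) (by linarith [lyap_ge y])
  have h2 : ∀ x, g x ≤ 1 / 2 * lyap x := by
    intro x
    simp only [g]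
    have := lyap_ge x
    split_ifs <;> linarith
  have h3 : (heat (killed (sP n) A) t *ᵥ g) x ≤ (1 / 2 * lyap x) * Real.exp (-(t * (1 - 11 / 12))) :=
    heat_mulVec_le ht fun k => pow_le_of_lyap hK0 (by norm_num) (by norm_num) h1 h2 k x
  rw [h0]
  refine h3.trans ?_
  have e1 : -(t * (1 - 11 / 12)) = -(t / 12) := by ring
  rw [e1]
  have := lyap_le x
  gcongr
  linarith

end Pool.Agent.T3H29.MLS
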